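import Pool.Agent.FU2.Stmts

/-!
# Squad FU2, row PBK: a formula of quadratic size for the parity of a block
-/

set_option autoImplicit false

open Finset

namespace Pool.Agent.FU2.H63

open Pool.Agent.FUR

theorem pbk : PBKStmt := by
  intro a b
  induction b using Nat.strong_induction_on generalizing a with
  | _ b ih =>
    intro hb
    rcases hb.eq_or_lt with h1 | h1
    · subst h1
      refine ⟨PF.var a, by simp [PF.size], ?_, ?_⟩
      · intro v hv
        simp only [PF.vars, Finset.mem_singleton] at hv
        omega
      · intro σ
        show σ a = xor (xor (px σ a) (σ a)) (px σ a)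
        cases px σ a <;> cases σ a <;> rfl
    · obtain ⟨h2, hh2⟩ : ∃ h2, h2 = b / 2 := ⟨_, rfl⟩
      obtain ⟨h3, hh3⟩ : ∃ h3, h3 = b - b / 2 := ⟨_, rfl⟩
      have e2 : 1 ≤ h2 := by omega
      have e3 : 1 ≤ h3 := by omega
      have e4 : h3 + h2 = b := by omega
      have e5 : h3 = h2 ∨ h3 = h2 + 1 := by omega
      obtain ⟨P, hP, vP, eP⟩ := ih h3 (by omega) a e3
      obtain ⟨Q, hQ, vQ, eQ⟩ := ih h2 (by omega) (a + h3) e2
      refine ⟨PF.or (PF.and P (PF.neg Q)) (PF.and (PF.neg P) Q), ?_, ?_, ?_⟩
      · have hs : (PF.or (PF.and P (PF.neg Q)) (PF.and (PF.neg P) Q)).size =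
            2 * P.size + 2 * Q.size + 5 := by
          simp only [PF.size]
          omega
        rw [hs, ← e4]
        rcases e5 with h | h
        · rw [h] at hP ⊢
          nlinarith
        · rw [h] at hP ⊢
          nlinarith
      · intro v hv
        simp only [PF.vars, Finset.mem_union] at hv
        rcases hv with (hv | hv) | (hv | hv)
        · have := vP v hv
          omega
        · have := vQ v hv
          omega
        · have := vP v hv
          omega
        · have := vQ v hv
          omega
      · intro σ
        have h6 : a + b = a + h3 + h2 := by omega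
        show ((P.eval σ && !(Q.eval σ)) || (!(P.eval σ) && Q.eval σ)) = _
        rw [eP, eQ, h6]
        cases px σ a <;> cases px σ (a + h3) <;> cases px σ (a + h3 + h2) <;> rfl

end Pool.Agent.FU2.H63
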